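import Pool.Agent.K1H73.ON.Stm

/-!
# The component of `a` inside `R k` stays in the box
-/

set_option autoImplicit false

namespace Pool.Agent.K1H6.ON

open Finset Pool.Agent.K1H73.ON

/-- the general handshake: the exit exists if `a` and `b` are not connected inside `R k` -/
def EXG : Prop := ∀ (D : Finset V) (a b : V) (ω : Finset (Sym2 V)) (k : ℤ),
  IsCfg D a b ω → a ∈ R k →
  (∀ ω' ⊆ ω, (∀ e ∈ ω', ∀ v ∈ e, v ∈ R k) → ¬ Conn ω' a b) → Exit a ω k (ex a ω k)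

/-- existence of the exit under `Set0` -/
def EX2 : Prop := ∀ (K : ℕ) (D : Finset V) (a b : V) (ω : Finset (Sym2 V)) (k : ℤ),
  Set0 K D a b → IsCfg D a b ω → 1 ≤ k → k ≤ 3 * K → Exit a ω k (ex a ω k)

theorem a_mem {K : ℕ} {D : Finset V} {a b : V} (h : Set0 K D a b) {k : ℤ} (hk : 1 ≤ k) :
    a ∈ R k := by
  obtain ⟨-, h2, h3, -, -⟩ := h
  refine ⟨?_, ?_, ?_⟩ <;> omega

theorem R_mono {j k : ℤ} (h : j ≤ k) {v : V} (hv : v ∈ R j) : v ∈ R k := by
  obtain ⟨h1, h2, h3⟩ := hv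
  exact ⟨by omega, by omega, by omega⟩

/-- the vertices which are connected to `a` inside `R k` -/
theorem box {K : ℕ} {D : Finset V} {a b : V} {ω : Finset (Sym2 V)} {k : ℤ}
    (hS : Set0 K D a b) (hω : IsCfg D a b ω) (hk : 1 ≤ k) (hkK : k ≤ 3 * K)
    (ω' : Finset (Sym2 V)) (hsub : ω' ⊆ ω) (hR : ∀ e ∈ ω', ∀ v ∈ e, v ∈ R k) (v : V)
    (hc : Conn ω' a v) : v ∈ R k ∧ 0 ≤ v.2 := by
  unfold Conn at hc
  obtain ⟨w⟩ := hc
  have key : ∀ {u v : V}, (SimpleGraph.fromEdgeSet (ω' : Set (Sym2 V))).Walk u v →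
      (u ∈ R k ∧ 0 ≤ u.2) → (v ∈ R k ∧ 0 ≤ v.2) := by
    intro u v w
    induction w with
    | nil => exact id
    | @cons x y z hxy _ ih =>
      intro hx
      apply ih
      rw [SimpleGraph.fromEdgeSet_adj] at hxy
      have he : s(x, y) ∈ ω' := by exact_mod_cast hxy.1
      have hy : y ∈ R k := hR _ he y (Sym2.mem_mk_right x y)
      refine ⟨hy, ?_⟩
      obtain ⟨p, q, hpq, hN, hp, hq⟩ := hω.1 _ (hsub he)
      have hyD : y ∈ D ∧ (|y.1 - x.1| ≤ 1) := by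
        have hpq' : |q.1 - p.1| ≤ 1 := by
          have h1 : ∀ d : V, q - p = d → |d.1| ≤ 1 → |q.1 - p.1| ≤ 1 := by
            intro d hd hd1
            have : (q - p).1 = q.1 - p.1 := rfl
            rw [← this, hd]; exact hd1
          rcases hN with h | h | ⟨h, -⟩ | ⟨h, -⟩
          · exact h1 _ h (by norm_num)
          · exact h1 _ h (by norm_num)
          · exact h1 _ h (by norm_num)
          · exact h1 _ h (by norm_num)
        rcases Sym2.eq_iff.1 hpq with ⟨h1, h2⟩ | ⟨h1, h2⟩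
        · rw [h1, h2]; exact ⟨hq, hpq'⟩
        · rw [h1, h2]; exact ⟨hp, by rw [abs_sub_comm]; exact hpq'⟩
      obtain ⟨⟨x1, x2, x3⟩, x4⟩ := hx
      obtain ⟨y1, y2, y3⟩ := hy
      have hy4 := abs_le.1 hyD.2
      refine (hS.1 y ?_ ?_).1 hyD.1
      · rw [abs_le]; constructor <;> omega
      · omega
  refine key w ⟨a_mem hS hk, ?_⟩
  rw [hS.2.1]

theorem ex2_of (h : EXG) : EX2 := by
  intro K D a b ω k hS hω hk hkK
  refine h D a b ω k hω (a_mem hS hk) fun ω' hsub hR hc => ?_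
  obtain ⟨⟨b1, b2, b3⟩, b4⟩ := box hS hω hk hkK ω' hsub hR b hc
  apply hS.2.2.2.2
  refine ⟨?_, by omega⟩
  rw [abs_le]; constructor <;> omega

end Pool.Agent.K1H6.ON
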