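import Pool.Agent.K1H6.ON.Box

/-!
# Existence of the exit (handshake)
-/

set_option autoImplicit false

namespace Pool.Agent.K1H6.ON

open Finset Pool.Agent.K1H73.ON

theorem nbr_ne {p q : V} (h : Nbr p q) : p ≠ q := by
  rintro rfl
  rcases h with h | h | ⟨h, -⟩ | ⟨h, -⟩ <;> simp [Prod.ext_iff] at h

open Classical in
theorem deg_eq (ω : Finset (Sym2 V)) (v : V) : deg ω v = (ω.filter (fun e => v ∈ e)).card := by
  unfold deg
  congr

open Classical in
theorem exg : EXG := by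
  intro D a b ω k hω ha hnc
  unfold ex
  apply Classical.epsilon_spec
  by_contra hno
  obtain ⟨ωk, hωk⟩ : ∃ ωk : Finset (Sym2 V), ωk = ω.filter (fun e => ∀ v ∈ e, v ∈ R k) := ⟨_, rfl⟩
  have hsub : ωk ⊆ ω := by rw [hωk]; exact Finset.filter_subset _ _
  have hinR : ∀ e ∈ ωk, ∀ v ∈ e, v ∈ R k := by
    intro e he
    rw [hωk] at he
    exact (Finset.mem_filter.1 he).2
  have hD : ∀ e ∈ ω, ∀ v ∈ e, v ∈ D := by
    intro e he v hv
    obtain ⟨p, q, rfl, -, hp, hq⟩ := hω.1 e he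
    rcases Sym2.mem_iff.1 hv with rfl | rfl
    · exact hp
    · exact hq
  have hne : ∀ v w : V, s(v, w) ∈ ω → v ≠ w := by
    intro v w he
    obtain ⟨p, q, hpq, hN, -, -⟩ := hω.1 _ he
    rcases Sym2.eq_iff.1 hpq with ⟨h1, h2⟩ | ⟨h1, h2⟩
    · rw [h1, h2]; exact nbr_ne hN
    · rw [h1, h2]; exact (nbr_ne hN).symm
  have haD : a ∈ D := by
    have h1 : 0 < (ω.filter (fun e => a ∈ e)).card := by
      rw [← deg_eq, hω.2.1.1]; exact one_pos
    obtain ⟨e, he⟩ := Finset.card_pos.1 h1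
    rw [Finset.mem_filter] at he
    exact hD e he.1 a he.2
  have hCR : ∀ v, Conn ωk a v → v ∈ R k ∧ v ∈ D := by
    intro v hv
    obtain ⟨w⟩ := (SimpleGraph.Reachable.symm hv : (SimpleGraph.fromEdgeSet (ωk : Set (Sym2 V))).Reachable v a)
    cases w with
    | nil => exact ⟨ha, haD⟩
    | @cons _ y _ h _ =>
      rw [SimpleGraph.fromEdgeSet_adj] at h
      have he : s(v, y) ∈ ωk := by exact_mod_cast h.1
      exact ⟨hinR _ he v (Sym2.mem_mk_left _ _), hD _ (hsub he) v (Sym2.mem_mk_left _ _)⟩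
  have hE : ∀ v, Conn ωk a v → ∀ e ∈ ω, v ∈ e → ∀ u ∈ e, Conn ωk a u := by
    intro v hv e he hve
    obtain ⟨w, rfl⟩ := hve
    have hvR := (hCR v hv).1
    have hw : w ∈ R k := by
      by_contra hw
      exact hno ⟨(v, w), hvR, hw, he, ωk, hsub, hinR, hv⟩
    have hek : s(v, w) ∈ ωk := by
      rw [hωk, Finset.mem_filter]
      refine ⟨he, fun u hu => ?_⟩
      rcases Sym2.mem_iff.1 hu with rfl | rfl
      · exact hvR
      · exact hw
    have hadj : (SimpleGraph.fromEdgeSet (ωk : Set (Sym2 V))).Adj v w := by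
      rw [SimpleGraph.fromEdgeSet_adj]
      exact ⟨by exact_mod_cast hek, hne v w he⟩
    intro u hu
    rcases Sym2.mem_iff.1 hu with rfl | rfl
    · exact hv
    · exact SimpleGraph.Reachable.trans hv hadj.reachable
  -- the double count
  obtain ⟨CC, hCC⟩ : ∃ CC : Finset V, CC = D.filter (fun v => Conn ωk a v) := ⟨_, rfl⟩
  obtain ⟨EC, hEC⟩ : ∃ EC : Finset (Sym2 V), EC = ω.filter (fun e => ∃ v ∈ e, Conn ωk a v) :=
    ⟨_, rfl⟩
  have hmC : ∀ v, v ∈ CC ↔ Conn ωk a v := by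
    intro v
    rw [hCC, Finset.mem_filter]
    exact ⟨fun h => h.2, fun h => ⟨(hCR v h).2, h⟩⟩
  have h1 : ∑ v ∈ CC, deg ω v = ∑ v ∈ CC, (EC.bipartiteAbove (fun v e => v ∈ e) v).card := by
    refine Finset.sum_congr rfl fun v hv => ?_
    rw [deg_eq]
    congr 1
    ext e
    rw [Finset.mem_filter, Finset.mem_bipartiteAbove, hEC, Finset.mem_filter]
    exact ⟨fun h => ⟨⟨h.1, v, h.2, (hmC v).1 hv⟩, h.2⟩, fun h => ⟨h.1.1, h.2⟩⟩
  have h2 : ∀ e ∈ EC, (CC.bipartiteBelow (fun v e => v ∈ e) e).card = 2 := by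
    intro e he
    rw [hEC, Finset.mem_filter] at he
    obtain ⟨he, v, hv, hc⟩ := he
    have hall := hE v hc e he hv
    obtain ⟨w, rfl⟩ := hv
    have : CC.bipartiteBelow (fun v e => v ∈ e) s(v, w) = {v, w} := by
      ext u
      rw [Finset.mem_bipartiteBelow, Finset.mem_insert, Finset.mem_singleton, Sym2.mem_iff, hmC]
      constructor
      · exact fun h => h.2
      · intro h
        refine ⟨hall u (Sym2.mem_iff.2 h), h⟩
    rw [this, Finset.card_pair (hne v w he)]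
  have h3 : ∑ v ∈ CC, deg ω v = EC.card * 2 := by
    rw [h1, Finset.sum_card_bipartiteAbove_eq_sum_card_bipartiteBelow, Finset.sum_congr rfl h2,
      Finset.sum_const, smul_eq_mul]
  have haC : a ∈ CC := (hmC a).2 (SimpleGraph.Reachable.refl _)
  have h4 : ∑ v ∈ CC, deg ω v = 1 + ∑ v ∈ CC.erase a, deg ω v := by
    rw [← Finset.add_sum_erase _ _ haC, hω.2.1.1]
  have h5 : Even (∑ v ∈ CC.erase a, deg ω v) := by
    refine Finset.even_sum _ fun v hv => ?_
    rw [Finset.mem_erase, hmC] at hv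
    have hvb : v ≠ b := by
      rintro rfl
      exact hnc ωk hsub hinR hv.2
    rcases hω.2.2 v hv.1 hvb with h | h
    · rw [h]; exact Even.zero
    · rw [h]; exact even_two
  obtain ⟨n, hn⟩ := h5
  omega

theorem ex2 : EX2 := ex2_of exg

end Pool.Agent.K1H6.ON
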