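import Pool.Agent.K1H6.ON.Box

/-!
# Places of smaller scale do not see changes outside `R k`
-/

set_option autoImplicit false

namespace Pool.Agent.K1H6.ON

open Finset Pool.Agent.K1H73.ON

theorem t_SC (h1 : EX2) (h2 : INV) (h3 : GEO) : SC := by
  intro K D a b ω S j k hS hω hj hjk hk hSR hω'
  have hout : ∀ e : Sym2 V, (∃ v ∈ e, v ∈ R k) → (e ∈ symmDiff ω S ↔ e ∈ ω) := by
    rintro e ⟨v, hv, hvR⟩
    have hne : e ∉ S := fun he => hSR e he v hv hvR
    rw [Finset.mem_symmDiff]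
    constructor
    · rintro (h | h)
      · exact h.1
      · exact absurd h.1 hne
    · exact fun h => Or.inl ⟨h, hne⟩
  have hE := h1 K D a b ω j hS hω hj (by omega)
  have hI := h2 a (symmDiff ω S) ω j (a_mem hS hj) (fun e ⟨v, hv, hvR⟩ =>
    hout e ⟨v, hv, R_mono (by omega) hvR⟩)
  obtain ⟨-, hG, -⟩ := h3 K D a b ω j hS hω hj (by omega) hE
  refine ⟨hI.2, fun i => ?_⟩
  have hint : symmDiff ω S ∩ hex (hx a ω j) = ω ∩ hex (hx a ω j) := by
    ext e
    rw [Finset.mem_inter, Finset.mem_inter]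
    constructor
    · rintro ⟨he, hh⟩
      refine ⟨?_, hh⟩
      unfold hex at hh
      obtain ⟨i, hi, rfl⟩ := Finset.mem_image.1 hh
      exact (hout _ ⟨cor (hx a ω j) i, Sym2.mem_mk_left _ _,
        R_mono (by omega) (hG i (Finset.mem_range.1 hi)).2.2.1⟩).1 he
    · rintro ⟨he, hh⟩
      refine ⟨?_, hh⟩
      unfold hex at hh
      obtain ⟨i, hi, rfl⟩ := Finset.mem_image.1 hh
      exact (hout _ ⟨cor (hx a ω j) i, Sym2.mem_mk_left _ _,
        R_mono (by omega) (hG i (Finset.mem_range.1 hi)).2.2.1⟩).2 he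
  unfold TyA TyB
  rw [hint]
  exact ⟨Iff.rfl, Iff.rfl⟩

end Pool.Agent.K1H6.ON
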